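import Mathlib

/-!
# The group `A_n × A_n` acting on `A_n` by `x ↦ g⁻¹ x h` is non-synchronizing for all `n ≥ 5`
-/

namespace Pool.Agent.Results.MP_358f87_al.AlternatingNonSync

open Equiv Equiv.Perm

/-- `B` is a transversal of the partition of `Ω` into the classes of `ρ`: it meets every class in
exactly one point. -/
def IsTransversal {Ω : Type} (ρ : Setoid Ω) (B : Set Ω) : Prop :=
  ∀ x : Ω, ∃! y : Ω, y ∈ B ∧ ρ x y

/-- The partition of `Ω` into the classes of `ρ` is `G`-regular: for some subset `A` of `Ω`, the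
image of `A` under each element of `G` is a transversal of the partition. -/
def IsRegularPartition {Ω : Type} (G : Subgroup (Perm Ω)) (ρ : Setoid Ω) : Prop :=
  ∃ A : Set Ω, ∀ g ∈ G, IsTransversal ρ (g '' A)

/-- The permutation group `G` on the finite set `Ω` is synchronizing: `Ω` has more than two points
and the only `G`-regular partitions of `Ω` are the partition into singletons and the partition
with a single part. -/
def Synchronizing {Ω : Type} (G : Subgroup (Perm Ω)) : Prop :=
  2 < Nat.card Ω ∧ ∀ ρ : Setoid Ω, IsRegularPartition G ρ → ρ = ⊥ ∨ ρ = ⊤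

/-- The permutation group induced on `S` by `S × S` with the action `(g, h) : x ↦ g⁻¹ x h`. -/
def twoSided (S : Type) [Group S] : Subgroup (Perm S) where
  carrier := {σ | ∃ g h : S, ∀ x : S, σ x = g⁻¹ * x * h}
  one_mem' := ⟨1, 1, by simp⟩
  mul_mem' := by
    rintro a b ⟨g, h, hgh⟩ ⟨g', h', hgh'⟩
    refine ⟨g' * g, h' * h, fun x => ?_⟩
    rw [Perm.mul_apply, hgh', hgh]
    group
  inv_mem' := by
    rintro a ⟨g, h, hgh⟩
    refine ⟨g⁻¹, h⁻¹, fun x => ?_⟩
    rw [Perm.inv_eq_iff_eq, hgh]
    group

/-! ### A sharply transitive set of even permutations -/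

lemma rot_pow {n : ℕ} [NeZero n] (k : ℕ) (x : Fin n) :
    ((finRotate n ^ k) x).val = (x.val + k) % n := by
  induction k with
  | zero => simp [Nat.mod_eq_of_lt x.isLt]
  | succ k ih =>
    rw [pow_succ', Perm.mul_apply, finRotate_apply]
    rw [Fin.val_add, ih, Fin.val_one', Nat.add_mod_mod, Nat.mod_add_mod, add_assoc]

/-- The rows: the rotation by `i`, preceded by the transposition of `0` and `2` when `n` is even
and `i` is odd. -/
def row (n : ℕ) [NeZero n] (i : ℕ) : Perm (Fin n) :=
  if n % 2 = 0 ∧ i % 2 = 1 then finRotate n ^ i * swap (Fin.ofNat n 0) (Fin.ofNat n 2)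
  else finRotate n ^ i

lemma row_even (n : ℕ) [NeZero n] (hn : 4 ≤ n) (i : ℕ) : row n i ∈ alternatingGroup (Fin n) := by
  rw [mem_alternatingGroup]
  unfold row
  split_ifs with h
  · rw [Perm.sign_mul, map_pow, sign_finRotate, sign_swap]
    · have h1 : (n - 1) % 2 = 1 := by omega
      have h2 : Odd ((n - 1) * i) := (Nat.odd_iff.2 h1).mul (Nat.odd_iff.2 h.2)
      rw [← pow_mul, h2.neg_one_pow]
      rfl
    · intro h0
      have := congrArg Fin.val h0
      simp only [Fin.ofNat] at this
      rw [Nat.mod_eq_of_lt (show 2 < n by omega)] at this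
      simp at this
  · rw [map_pow, sign_finRotate, ← pow_mul]
    have : Even ((n - 1) * i) := by
      rcases Nat.even_or_odd i with hi | hi
      · exact hi.mul_left _
      · have hn2 : n % 2 = 1 := by
          rcases Nat.mod_two_eq_zero_or_one n with h0 | h0
          · exact absurd ⟨h0, Nat.odd_iff.1 hi⟩ h
          · exact h0
        have : Even (n - 1) := Nat.even_iff.2 (by omega)
        exact this.mul_right _
    rw [this.neg_one_pow]

/-- The swap of `0` and `2` does not change parities. -/
lemma swap_parity (n : ℕ) [NeZero n] (hn : 4 ≤ n) (x : Fin n) :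
    (swap (Fin.ofNat n 0) (Fin.ofNat n 2) x).val % 2 = x.val % 2 := by
  have h0 : (Fin.ofNat n 0).val = 0 := by simp [Fin.ofNat]
  have h2 : (Fin.ofNat n 2).val = 2 := by
    simp only [Fin.ofNat]; exact Nat.mod_eq_of_lt (by omega)
  by_cases hx0 : x = Fin.ofNat n 0
  · rw [hx0, swap_apply_left, h0, h2]
  · by_cases hx2 : x = Fin.ofNat n 2
    · rw [hx2, swap_apply_right, h0, h2]
    · rw [swap_apply_of_ne_of_ne hx0 hx2]

lemma row_val (n : ℕ) [NeZero n] (i : ℕ) (x : Fin n) :
    (row n i x).val = ((if n % 2 = 0 ∧ i % 2 = 1 then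
      (swap (Fin.ofNat n 0) (Fin.ofNat n 2) x).val else x.val) + i) % n := by
  unfold row
  split_ifs with h
  · rw [Perm.mul_apply, rot_pow]
  · rw [rot_pow]

/-- The rows form a sharply transitive set. -/
lemma row_sharp (n : ℕ) [NeZero n] (hn : 4 ≤ n) (x y : Fin n) :
    ∃! i : Fin n, row n i.val x = y := by
  have hinj : Function.Injective (fun i : Fin n => row n i.val x) := by
    intro i j hij
    have h := congrArg Fin.val hij
    simp only [row_val] at h
    have hs := swap_parity n hn x
    set sx := (swap (Fin.ofNat n 0) (Fin.ofNat n 2) x).val with hsx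
    have hi := i.isLt
    have hj := j.isLt
    have hsame : ∀ a : ℕ, (a + i.val) % n = (a + j.val) % n → i = j := by
      intro a ha
      have h1 : (i.val) ≡ (j.val) [MOD n] := Nat.ModEq.add_left_cancel' a ha
      exact Fin.ext (Nat.ModEq.eq_of_lt_of_lt h1 hi hj)
    have hpar : ∀ a b : ℕ, n % 2 = 0 → (a + i.val) % n = (b + j.val) % n →
        (a + i.val) % 2 = (b + j.val) % 2 := by
      intro a b hn2 hab
      have hd : 2 ∣ n := Nat.dvd_of_mod_eq_zero hn2
      have := (Nat.ModEq.of_dvd hd (show (a + i.val) ≡ (b + j.val) [MOD n] from hab))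
      exact this
    split_ifs at h with h1 h2 h2
    · exact hsame _ h
    · exfalso
      have := hpar _ _ h1.1 h
      have h3 : j.val % 2 ≠ 1 := fun h3 => h2 ⟨h1.1, h3⟩
      omega
    · exfalso
      have := hpar _ _ h2.1 h
      have h3 : i.val % 2 ≠ 1 := fun h3 => h1 ⟨h2.1, h3⟩
      omega
    · exact hsame _ h
  have hbij := Finite.injective_iff_bijective.1 hinj
  exact hbij.existsUnique y

/-- The partition of `A_n` by the image of the point `0`. -/
def part (n : ℕ) [NeZero n] : Setoid (alternatingGroup (Fin n)) :=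
  Setoid.ker fun σ => (σ : Perm (Fin n)) 0

lemma part_regular (n : ℕ) [NeZero n] (hn : 4 ≤ n) :
    IsRegularPartition (twoSided (alternatingGroup (Fin n))) (part n) := by
  refine ⟨Set.range fun i : Fin n => (⟨row n i.val, row_even n hn i.val⟩ :
    alternatingGroup (Fin n)), ?_⟩
  rintro τ ⟨g, h, hτ⟩ x
  obtain ⟨i, hi, huniq⟩ := row_sharp n hn ((h : Perm (Fin n)) 0)
    ((g : Perm (Fin n)) ((x : Perm (Fin n)) 0))
  refine ⟨τ ⟨row n i.val, row_even n hn i.val⟩, ⟨⟨_, ⟨i, rfl⟩, rfl⟩, ?_⟩, ?_⟩
  · show (x : Perm (Fin n)) 0 = _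
    rw [hτ]
    simp only [Subgroup.coe_mul, Subgroup.coe_inv, Perm.mul_apply]
    rw [hi, ← Perm.mul_apply, inv_mul_cancel, Perm.one_apply]
  · rintro y ⟨⟨_, ⟨j, rfl⟩, rfl⟩, hy⟩
    have hy' : (x : Perm (Fin n)) 0 = (τ ⟨row n j.val, row_even n hn j.val⟩ : Perm (Fin n)) 0 := hy
    rw [hτ] at hy'
    simp only [Subgroup.coe_mul, Subgroup.coe_inv, Perm.mul_apply] at hy'
    have : row n j.val ((h : Perm (Fin n)) 0) = (g : Perm (Fin n)) ((x : Perm (Fin n)) 0) := by
      rw [hy', ← Perm.mul_apply (g : Perm (Fin n)), mul_inv_cancel, Perm.one_apply]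
    have hji := huniq j this
    rw [hji]

/-- **For every `n ≥ 4` (in particular for all the simple groups `A_n`, `n ≥ 5`) the permutation
group `A_n × A_n` on `A_n`, with the action `(g, h) : x ↦ g⁻¹ x h`, is non-synchronizing.** -/
theorem result (n : ℕ) (hn : 4 ≤ n) :
    ¬ Synchronizing (twoSided (alternatingGroup (Fin n))) := by
  have : NeZero n := ⟨by omega⟩
  rintro ⟨-, h⟩
  let c : ℕ → Fin n := Fin.ofNat n
  have hc : ∀ a b, a < n → b < n → a ≠ b → c a ≠ c b := by
    intro a b ha hb hab h
    have := congrArg Fin.val h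
    simp only [c, Fin.ofNat, Nat.mod_eq_of_lt ha, Nat.mod_eq_of_lt hb] at this
    exact hab this
  have h01 := hc 0 1 (by omega) (by omega) (by omega)
  have h02 := hc 0 2 (by omega) (by omega) (by omega)
  have h03 := hc 0 3 (by omega) (by omega) (by omega)
  have h12 := hc 1 2 (by omega) (by omega) (by omega)
  have h13 := hc 1 3 (by omega) (by omega) (by omega)
  have h23 := hc 2 3 (by omega) (by omega) (by omega)
  have c0 : c 0 = 0 := by
    apply Fin.ext
    simp [c]
  rcases h (part n) (part_regular n hn) with h | h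
  · -- two distinct even permutations with the same value at `0`
    have hmem : swap (c 1) (c 2) * swap (c 2) (c 3) ∈ alternatingGroup (Fin n) := by
      rw [mem_alternatingGroup, Perm.sign_mul, sign_swap h12, sign_swap h23]
      rfl
    have hrel : (part n) (⟨_, hmem⟩ : alternatingGroup (Fin n)) 1 := by
      show (swap (c 1) (c 2) * swap (c 2) (c 3)) 0 = (1 : Perm (Fin n)) 0
      rw [← c0, Perm.mul_apply, swap_apply_of_ne_of_ne h02 h03, swap_apply_of_ne_of_ne h01 h02]
      rfl
    rw [h] at hrel
    have h2 := congrArg (fun σ : alternatingGroup (Fin n) => (σ : Perm (Fin n)) (c 3)) hrel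
    have h3 : (swap (c 1) (c 2) * swap (c 2) (c 3)) (c 3) = (1 : Perm (Fin n)) (c 3) := h2
    rw [Perm.mul_apply, swap_apply_right, swap_apply_right, Perm.one_apply] at h3
    exact h13 h3
  · have hmem : swap (c 0) (c 1) * swap (c 1) (c 2) ∈ alternatingGroup (Fin n) := by
      rw [mem_alternatingGroup, Perm.sign_mul, sign_swap h01, sign_swap h12]
      rfl
    have hrel : (part n) (⟨_, hmem⟩ : alternatingGroup (Fin n)) 1 := by
      rw [h]
      trivial
    have h3 : (swap (c 0) (c 1) * swap (c 1) (c 2)) 0 = (1 : Perm (Fin n)) 0 := hrel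
    rw [← c0, Perm.mul_apply, swap_apply_of_ne_of_ne h01 h02, swap_apply_left,
      Perm.one_apply] at h3
    exact h01 h3.symm

end Pool.Agent.Results.MP_358f87_al.AlternatingNonSync
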