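import Pool.Agent.NS98.KCentre26

/-!
# `PΩ⁺(2m, q) × PΩ⁺(2m, q)` acting on `PΩ⁺(2m, q)` by `x ↦ g⁻¹ x h` is non-synchronizing for all
even `q` and even `m ≥ 4`

Let `W = F ^ m`, `V = W ⊕ W*` with the quadratic form `Q(w, f) = f(w)`. For `k` in `GL(W)` the map
`(w, f) ↦ (k w, f k⁻¹)` and for an alternating form `ω` on `W` the map
`(w, f) ↦ (w, f + ω(w, ·))` are isometries. As `m` is even and `q` is even there is a Kerdock set: a
set `E` of `q ^ (m - 1)` alternating forms on `W`, all differences of which are nondegenerate. Let
`A` be the set of the products of these two kinds of maps, for `k` in the group of the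
multiplications by the non-zero elements of the field with `q ^ m` elements and `ω` in `E`. If
`f(w) = 1 = f'(w')` there is exactly one `k` with `k w = w'`, and then exactly one `ω` in `E` with
`f + ω(w, ·) = f' k`, because `ω ↦ ω(w, ·)` is injective on `E` and there are `q ^ (m - 1)` linear
forms on `W` which vanish at `w`. So `A` is sharply transitive on the vectors with `Q = 1`. The
elements of `A` are products of commutators of isometries (a multiplication `k` is conjugate to its
inverse and of odd order; the Kerdock set is invariant under a group of odd order with one orbit
outside zero and its sum is zero). The centre of `Ω⁺(2m, q)` is trivial. A group `S` with a subgroup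
`H`, other than `1` and `S`, and a subset `A` which is sharply transitive on the cosets of `H` and
of its conjugates is non-synchronizing for the two-sided action.

The Lean of this row is by helper26.
-/

set_option autoImplicit false

namespace Pool.Agent.Results.MP_358f87_al.KerdockNonSync

open Pool.Agent.NS98

/-- Let `F` be a finite field of characteristic two and `m ≥ 4` even. Then the permutation group
induced on `S = PΩ⁺(2m, F)` by `S × S` with the action `(g, h) : x ↦ g⁻¹ x h` is
non-synchronizing. -/
theorem result (F : Type) [Field F] [Finite F] [CharP F 2] (m : ℕ) (hm : Even m) (h4 : 4 ≤ m) :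
    ¬ Synchronizing (twoSided (POmega m F)) :=
  K.pomega_even F m hm h4

end Pool.Agent.Results.MP_358f87_al.KerdockNonSync
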