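import Pool.Agent.NS98.LType

/-!
# The group `PSL(n, q) × PSL(n, q)` acting on `PSL(n, q)` by `x ↦ g⁻¹ x h`

It is non-synchronizing if `gcd(n, q - 1) = 1`, or `gcd(n, q - 1) = 2` and `q = 3` modulo `4`.
-/

set_option autoImplicit false

namespace Pool.Agent.Results.MP_358f87_al.LinearNonSync

open Pool.Agent.NS98

/-- For a finite field `F` with `q` elements and `n ≥ 2` such that `gcd(n, q - 1) = 1`, or
`gcd(n, q - 1) = 2` and `q = 3` modulo `4`, the permutation group `S × S` on `S = PSL(n, F)` is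
non-synchronizing. -/
theorem result (n : ℕ) (hn : 2 ≤ n) (F : Type) [Field F] [Fintype F]
    (h : Nat.gcd n (Fintype.card F - 1) = 1 ∨
      (Nat.gcd n (Fintype.card F - 1) = 2 ∧ Fintype.card F % 4 = 3)) :
    ¬ Synchronizing (twoSided (Matrix.ProjectiveSpecialLinearGroup (Fin n) F)) :=
  LType.psl n hn F h

end Pool.Agent.Results.MP_358f87_al.LinearNonSync
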