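import Pool.Agent.NS98.OctMain

/-!
# `PΩ⁺(8, q) × PΩ⁺(8, q)` acting on `PΩ⁺(8, q)` by `x ↦ g⁻¹ x h` is non-synchronizing, for all `q`

`F ^ 4 × F ^ 4` with the quadratic form `N = ∑ x_i y_i` carries the product of the split octonions
(Zorn's vector matrices), `N (x y) = N (x) N (y)`. The left multiplications `L_x` by the octonions
of norm one are isometries. They are elements of `Ω = [O, O]`: by the Moufang identity
`((x y) z) y = x (y (z y))` the class of `L_(x y)` modulo `[O, O]` is the product of the classes of
`L_x` and `L_y`, automorphisms of the octonions preserve the class, and there is an automorphism
which maps an octonion `y` to `y w`, so the class of `w` is trivial; such `w` generate. Given `v`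
and `v'` of norm one there is exactly one `x` of norm one with `x v = v'`. So the images of the
`L_x` in `PΩ⁺(8, F)` form a sharply transitive set (modulo the centre). A group `S` which has a
subgroup `H`, different from `1` and `S`, and a subset `A` which is sharply transitive on the cosets
of `H` and its conjugates is non-synchronizing for the two-sided action: the partition into the
cosets `x H` is regular, with the transversals `g⁻¹ A h`.
-/

set_option autoImplicit false

namespace Pool.Agent.Results.MP_358f87_al.OctonionNonSync

open Pool.Agent.NS98

/-- For every finite field `F` the permutation group induced on `S = PΩ⁺(8, F)` by `S × S` with the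
action `(g, h) : x ↦ g⁻¹ x h` is non-synchronizing. -/
theorem result (F : Type) [Field F] [Finite F] :
    ¬ Synchronizing (twoSided (POmega 4 F)) :=
  oct_not_sync

end Pool.Agent.Results.MP_358f87_al.OctonionNonSync
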